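import Pool.Agent.H72.FB4.Cls

/-! Numerical classes below a nef class `l` with `l^3 = 0`, `l^2` not zero. -/

namespace Pool.Agent.H88.XF

open Pool.Agent.H72.FB4

variable (C : Cls)

theorem Cls_add2 (x y a b c : C.V) : C.I a (x + y) b c = C.I a x b c + C.I a y b c := by
  rw [C.swap, C.add, C.swap x, C.swap y]

theorem Cls_smul2 (t : ℝ) (x a b c : C.V) : C.I a (t • x) b c = t * C.I a x b c := by
  rw [C.swap, C.smul, C.swap x]

theorem Cls_cubic (x z y : C.V) : C.I (x + z) (x + z) (x + z) y =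
    C.I x x x y + 3 * C.I x x z y + 3 * C.I x z z y + C.I z z z y := by
  have e1 : C.I (x + z) (x + z) (x + z) y =
      C.I x x x y + C.I x x z y + (C.I x z x y + C.I x z z y) +
      (C.I z x x y + C.I z x z y + (C.I z z x y + C.I z z z y)) := by
    rw [C.add, Cls_add2, Cls_add2, C.add3, C.add3, C.add3, C.add3]
  rw [e1, C.swap' x z x y, C.swap z x x y, C.swap' x z x y, C.swap z x z y, C.swap' z z x y,
    C.swap z x z y]
  ring

/-- Siu's number for `(1 + u) p + e a` and `u l`. -/
theorem Cls_siu {l p a : C.V} {k K u : ℝ} (hu : 0 < u) (hK : 2 * u * k < (1 + u) * K)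
    (hlla : 0 < C.I l l a a) (hppp : ∀ x, C.I p p p x = 0)
    (hpp : ∀ x y, C.I p p x y = K * C.I l l x y) (hpl : ∀ x y, C.I p l x y = k * C.I l l x y)
    (hlll : ∀ x, C.I l l l x = 0) :
    ∀ t : ℝ, 0 < t → ∃ e, 0 < e ∧ e < t ∧
      4 * C.I ((1 + u) • p + e • a) ((1 + u) • p + e • a) ((1 + u) • p + e • a) (u • l) <
        C.I ((1 + u) • p + e • a) ((1 + u) • p + e • a) ((1 + u) • p + e • a)
          ((1 + u) • p + e • a) := by
  intro t ht
  -- the expansion of the cube
  have hcube : ∀ (e : ℝ) (y : C.V), C.I ((1 + u) • p + e • a) ((1 + u) • p + e • a)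
      ((1 + u) • p + e • a) y = 3 * ((1 + u) ^ 2 * e * (K * C.I l l a y)) +
        3 * ((1 + u) * e ^ 2 * C.I p a a y) + e ^ 3 * C.I a a a y := by
    intro e y
    rw [Cls_cubic]
    simp only [C.smul, Cls_smul2, C.smul3, hppp, hpp]
    ring
  set W := C.I l l a a with hW
  set s := C.I a a a l with hs
  set q := C.I p a a a with hq
  set v := C.I a a a a with hv
  have hlal : C.I l l a l = 0 := by
    rw [C.swap'' l l a l]
    exact hlll a
  have hpaal : C.I p a a l = k * W := by
    have h1 : C.I p a a l = C.I p l a a := by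
      rw [C.swap'' p a a l, C.swap' p a l a]
    rw [h1, hpl]
  have hllap : C.I l l a p = 0 := by
    have h1 : C.I l l a p = C.I p l l a := by
      rw [C.swap'' l l a p, C.swap' l l p a, C.swap l p l a]
    rw [h1, hpl, hlll a, mul_zero]
  have hpaap : C.I p a a p = K * W := by
    have h1 : C.I p a a p = C.I p p a a := by
      rw [C.swap'' p a a p, C.swap' p a p a]
    rw [h1, hpp]
  have haaap : C.I a a a p = q := by
    rw [C.rot a a a p, C.swap a p a a]
  have hleft : ∀ e : ℝ, 4 * C.I ((1 + u) • p + e • a) ((1 + u) • p + e • a) ((1 + u) • p + e • a)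
      (u • l) = 12 * u * (1 + u) * e ^ 2 * (k * W) + 4 * u * e ^ 3 * s := by
    intro e
    rw [hcube, C.smul4, C.smul4, C.smul4, hlal, hpaal]
    ring
  have hright : ∀ e : ℝ, C.I ((1 + u) • p + e • a) ((1 + u) • p + e • a) ((1 + u) • p + e • a)
      ((1 + u) • p + e • a) = 6 * (1 + u) ^ 2 * e ^ 2 * (K * W) + 4 * (1 + u) * e ^ 3 * q +
        e ^ 4 * v := by
    intro e
    rw [hcube, C.add4, C.add4, C.add4, C.smul4, C.smul4, C.smul4, C.smul4, C.smul4, C.smul4, hllap,
      hpaap, haaap]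
    rw [← hW, ← hq, ← hv]
    ring
  -- choose `e`
  set d := 6 * (1 + u) * W * ((1 + u) * K - 2 * u * k) with hd
  have hdpos : 0 < d := by
    have : 0 < (1 + u) * K - 2 * u * k := by linarith
    positivity
  set m := |4 * u * s| + |4 * (1 + u) * q| + |v| + 1 with hm
  have hmpos : 0 < m := by positivity
  obtain ⟨e, he0, he1, he2, he3⟩ : ∃ e : ℝ, 0 < e ∧ e < t ∧ e < 1 ∧ e * m < d := by
    refine ⟨min (min (t / 2) (1 / 2)) (d / (2 * m)), by positivity, ?_, ?_, ?_⟩
    · exact lt_of_le_of_lt (le_trans (min_le_left _ _) (min_le_left _ _)) (by linarith)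
    · exact lt_of_le_of_lt (le_trans (min_le_left _ _) (min_le_right _ _)) (by norm_num)
    · have h1 : min (min (t / 2) (1 / 2)) (d / (2 * m)) * m ≤ d / (2 * m) * m :=
        mul_le_mul_of_nonneg_right (min_le_right _ _) hmpos.le
      have h2 : d / (2 * m) * m = d / 2 := by field_simp
      linarith
  refine ⟨e, he0, he1, ?_⟩
  rw [hleft, hright]
  have h1 : 6 * (1 + u) ^ 2 * e ^ 2 * (K * W) + 4 * (1 + u) * e ^ 3 * q + e ^ 4 * v -
      (12 * u * (1 + u) * e ^ 2 * (k * W) + 4 * u * e ^ 3 * s) =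
      e ^ 2 * (d - e * (4 * u * s - 4 * (1 + u) * q - e * v)) := by
    rw [hd]
    ring
  have h2 : e * (4 * u * s - 4 * (1 + u) * q - e * v) ≤ e * m := by
    refine mul_le_mul_of_nonneg_left ?_ he0.le
    have h3 := le_abs_self (4 * u * s)
    have h4 := neg_abs_le (4 * (1 + u) * q)
    have h5 : -(e * v) ≤ |v| := by
      have h6 := neg_abs_le v
      have h7 := abs_nonneg v
      have h8 : -(e * v) ≤ e * |v| := by nlinarith
      nlinarith
    linarith
  have h3 : 0 < e ^ 2 * (d - e * (4 * u * s - 4 * (1 + u) * q - e * v)) := by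
    have : 0 < d - e * (4 * u * s - 4 * (1 + u) * q - e * v) := by linarith
    positivity
  linarith

end Pool.Agent.H88.XF
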