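import Pool.Agent.H15.XF.Lin
import Pool.Agent.H88.XF.Num

/-!
# Extremal b-nef classes of numerical dimension two on fourfolds (MP_5ee2d0_ag)
-/

namespace Pool.Agent.H88.XF

open Pool.Agent.H15.XF Pool.Agent.H72.FB4

/-- The b-classes as numerical classes. -/
@[reducible] def toCls {r : ℕ} (B : BCl r) : Cls where
  V := B.V
  grp := B.grp
  mod := B.mod
  I := B.I
  Nef := {v | B.Nef v}
  add x y a b c := BCl.I1_add x y a b c
  smul t x a b c := BCl.I1_smul t x a b c
  swap := B.symm12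
  swap' := B.symm23
  swap'' := B.symm34
  nef_add a ha b hb := B.nef_add a b ha hb
  nef_smul a ha t ht := B.nef_smul t a ht ha
  nonneg a ha b hb c hc d hd := B.nonneg a b c d ha hb hc hd
  span x := by
    obtain ⟨a, b, ha, hb, h⟩ := B.gen x
    exact ⟨a, ha, b, hb, h⟩
  hodge a ha b hb h _ x h1 h2 := B.index a b x h ha hb h1 (by rw [B.symm12]; exact h2)

variable {r : ℕ} {B : BCl r} {L : Fin r → ℝ}

/-- A nef class `m` such that `m.l = 0`, `l^2` not zero, is numerically trivial. -/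
theorem Cls_zero (C : Cls) {l m a : C.V} (hl : l ∈ C.Nef) (hm : m ∈ C.Nef) (ha : a ∈ C.Nef)
    (haa : 0 < C.I l l a a) (hml : ∀ x y, C.I m l x y = 0) (x y z : C.V) : C.I m x y z = 0 := by
  have h1 : ∀ h ∈ C.Nef, ∀ h' ∈ C.Nef, 0 < C.I l l h h' → ∀ y, C.I m y h h' = 0 := by
    intro h hh h' hh' hp y
    have F := C.lor hh hh'
    have e1 : C.I l m h h' = 0 := by rw [C.swap]; exact hml h h'
    have e2 : C.I m m h h' = 0 :=
      le_antisymm (F.index l hl m hp e1) (C.nonneg m hm m hm h hh h' hh')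
    exact F.ker_of hl hp e1 e2 y
  have h2 : ∀ y ∈ C.Nef, ∀ h ∈ C.Nef, ∀ h' ∈ C.Nef, C.I m y h h' = 0 := by
    intro y hy h hh h' hh'
    have hp : 0 < C.I l l (h + a) (h' + a) := by
      rw [C.add3, C.add4, C.add4]
      have e1 := C.nonneg l hl l hl h hh h' hh'
      have e2 := C.nonneg l hl l hl h hh a ha
      have e3 := C.nonneg l hl l hl a ha h' hh'
      linarith
    have e := h1 (h + a) (C.nef_add h hh a ha) (h' + a) (C.nef_add h' hh' a ha) hp y
    rw [C.add3, C.add4, C.add4] at e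
    have e1 := C.nonneg m hm y hy h hh h' hh'
    have e2 := C.nonneg m hm y hy h hh a ha
    have e3 := C.nonneg m hm y hy a ha h' hh'
    have e4 := C.nonneg m hm y hy a ha a ha
    linarith
  have h3 : ∀ x ∈ C.Nef, ∀ y ∈ C.Nef, ∀ z, C.I m x y z = 0 := fun x hx y hy z =>
    C.ext_nef (f := fun z => C.I m x y z) (g := fun _ => 0) (fun p q => C.sub4 _ _ _ _ _)
      (fun p q => by simp) (fun z hz => h2 x hx y hy z hz) z
  have h4 : ∀ x ∈ C.Nef, ∀ y z, C.I m x y z = 0 := fun x hx y z =>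
    C.ext_nef (f := fun y => C.I m x y z) (g := fun _ => 0) (fun p q => C.sub3 _ _ _ _ _)
      (fun p q => by simp) (fun y hy => h3 x hx y hy z) y
  obtain ⟨p, hp, q, hq, rfl⟩ := C.span x
  have e : C.I m (p - q) y z = C.I m p y z - C.I m q y z := by
    rw [C.swap, C.sub1, C.swap p, C.swap q]
  rw [e, h4 p hp, h4 q hq, sub_zero]

/-- The square of a nef class `m` with `l^2.m = 0`, where `l` is nef, `l^3 = 0`, `l^2` not zero. -/
theorem Cls_sq (C : Cls) {l m a : C.V} (hl : l ∈ C.Nef) (hm : m ∈ C.Nef) (ha : a ∈ C.Nef)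
    (hlll : ∀ x, C.I l l l x = 0) (hllm : ∀ x, C.I l l m x = 0) (haa : 0 < C.I l l a a) :
    (∀ x, C.I m m m x = 0) ∧ ∃ K, ∀ x y, C.I m m x y = K * C.I l l x y := by
  obtain ⟨h1, k, hk, h2⟩ := C.mul_l hl hm ha hlll hllm haa
  rcases hk.lt_or_eq with h | h
  · obtain ⟨h3, K, -, h4⟩ := C.mul_m hl hm ha hllm haa h1 h h2
    exact ⟨h3, K, h4⟩
  · have h5 : ∀ x y, C.I m l x y = 0 := by
      intro x y
      rw [h2, ← h, zero_mul]
    have h6 := Cls_zero C hl hm ha haa h5
    exact ⟨fun x => h6 m m x, 0, fun x y => by rw [h6, zero_mul]⟩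

/-- Products of two such classes. -/
theorem Cls_prod (C : Cls) {l v w a : C.V} (hl : l ∈ C.Nef) (hv : v ∈ C.Nef) (hw : w ∈ C.Nef)
    (ha : a ∈ C.Nef) (hlll : ∀ x, C.I l l l x = 0) (hv0 : ∀ x, C.I l l v x = 0)
    (hw0 : ∀ x, C.I l l w x = 0) (haa : 0 < C.I l l a a) (x y : C.V) :
    C.I v w x y * C.I l l a a = C.I v w a a * C.I l l x y := by
  obtain ⟨-, k1, h1⟩ := Cls_sq C hl hv ha hlll hv0 haa
  obtain ⟨-, k2, h2⟩ := Cls_sq C hl hw ha hlll hw0 haa
  obtain ⟨-, k3, h3⟩ := Cls_sq C hl (C.nef_add v hv w hw) ha hlll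
    (fun x => by rw [C.add3, hv0, hw0, add_zero]) haa
  have e : ∀ x y, C.I (v + w) (v + w) x y = C.I v v x y + 2 * C.I v w x y + C.I w w x y := by
    intro x y
    rw [C.add, Cls_add2, Cls_add2, C.swap w v]
    ring
  have h4 : ∀ x y, 2 * C.I v w x y = (k3 - k1 - k2) * C.I l l x y := by
    intro x y
    have := e x y
    rw [h1, h2, h3] at this
    linarith
  have e1 := h4 x y
  have e2 := h4 a a
  have : 2 * (C.I v w x y * C.I l l a a) = 2 * (C.I v w a a * C.I l l x y) := by
    calc 2 * (C.I v w x y * C.I l l a a) = (2 * C.I v w x y) * C.I l l a a := by ring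
      _ = (2 * C.I v w a a) * C.I l l x y := by rw [e1, e2]; ring
      _ = _ := by ring
  linarith

theorem good_L (h : Two B L) : Good B L (B.pb L) :=
  ⟨h.nef, B.tr_pb L, fun E => by rw [BCl.o_pb']⟩

theorem good_conv {v w : B.V} (hv : Good B L v) (hw : Good B L w) {t : ℝ} (h0 : 0 ≤ t)
    (h1 : t ≤ 1) : Good B L (t • v + (1 - t) • w) := by
  have h1' : 0 ≤ 1 - t := by linarith
  refine ⟨B.nef_add _ _ (B.nef_smul _ _ h0 hv.1) (B.nef_smul _ _ h1' hw.1), ?_, fun E => ?_⟩
  · rw [BCl.tr_add, BCl.tr_smul, BCl.tr_smul, hv.2.1, hw.2.1, ← add_smul]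
    rw [add_sub_cancel, one_smul]
  · rw [BCl.o_add, BCl.o_smul, BCl.o_smul]
    exact add_nonneg (mul_nonneg h0 (hv.2.2 E)) (mul_nonneg h1' (hw.2.2 E))

/-- A smaller b-divisor gives a larger class. -/
theorem mono {v w : B.V} (htr : B.tr v = B.tr w) (h : ∀ E, B.o v E ≤ B.o w E) {a b c : B.V}
    (ha : B.Nef a) (hb : B.Nef b) (hc : B.Nef c) : B.I w a b c ≤ B.I v a b c := by
  have h1 := B.eff (v - w) (by rw [BCl.tr_sub, htr, sub_self])
    (fun E => by rw [BCl.o_sub]; linarith [h E]) a b c ha hb hc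
  rw [BCl.I1_sub] at h1
  linarith

theorem llv (h : Two B L) {v : B.V} (hv : Good B L v) (x : B.V) :
    B.I (B.pb L) (B.pb L) v x = 0 := by
  refine (toCls B).ext_nef (f := fun x => B.I (B.pb L) (B.pb L) v x) (g := fun _ => 0)
    (fun p q => (toCls B).sub4 _ _ _ _ _) (fun p q => by simp) ?_ x
  intro y hy
  have e : B.I (B.pb L) (B.pb L) v y = B.I v (B.pb L) (B.pb L) y := by
    rw [B.symm23, B.symm12]
  have h1 := mono (B := B) (v := B.pb L) (w := v) (by rw [B.tr_pb, hv.2.1])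
    (fun E => by rw [BCl.o_pb']; exact hv.2.2 E) h.nef h.nef hy
  have h2 := B.nonneg _ _ _ _ hv.1 h.nef h.nef hy
  rw [h.cube] at h1
  show B.I (B.pb L) (B.pb L) v y = 0
  rw [e]
  linarith

/-- The product of two classes `L - y` is a multiple of `L^2`. -/
theorem prod (h : Two B L) {v w : B.V} (hv : Good B L v) (hw : Good B L w) (x y : B.V) :
    B.I v w x y * B.I (B.pb L) (B.pb L) (B.pb B.A) (B.pb B.A) =
      B.I v w (B.pb B.A) (B.pb B.A) * B.I (B.pb L) (B.pb L) x y :=
  Cls_prod (toCls B) h.nef hv.1 hw.1 B.nef_A h.cube (llv h hv) (llv h hw) h.pos x y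

/-- Lemma M: Siu's inequality for `L - (1 + u) y`. -/
theorem lemmaM (B : BCl r) (L : Fin r → ℝ) : LemmaM B L := by
  intro h v u hv hu hlt
  set W := B.I (B.pb L) (B.pb L) (B.pb B.A) (B.pb B.A) with hW
  have hWp : 0 < W := h.pos
  set k := B.I v (B.pb L) (B.pb B.A) (B.pb B.A) / W with hk
  set K := B.I v v (B.pb B.A) (B.pb B.A) / W with hK
  have hpp : ∀ x y, B.I v v x y = K * B.I (B.pb L) (B.pb L) x y := by
    intro x y
    have := prod h hv hv x y
    rw [← hW] at this
    rw [hK, div_mul_eq_mul_div, ← this, mul_div_cancel_right₀ _ hWp.ne']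
  have hpl : ∀ x y, B.I v (B.pb L) x y = k * B.I (B.pb L) (B.pb L) x y := by
    intro x y
    have := prod h hv (good_L h) x y
    rw [← hW] at this
    rw [hk, div_mul_eq_mul_div, ← this, mul_div_cancel_right₀ _ hWp.ne']
  have hppp : ∀ x, B.I v v v x = 0 :=
    (Cls_sq (toCls B) h.nef hv.1 B.nef_A h.cube (llv h hv) h.pos).1
  have hKk : 2 * u * k < (1 + u) * K := by
    rw [B.symm12] at hlt
    rw [hk, hK, ← mul_div_assoc, ← mul_div_assoc]
    exact div_lt_div_of_pos_right hlt hWp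
  have hs := Cls_siu (toCls B) (l := B.pb L) (p := v) (a := B.pb B.A) hu hKk hWp hppp hpp hpl h.cube
  have ho' : ∀ E, B.o ((1 + u) • v - u • B.pb L) E = (1 + u) * B.o v E := by
    intro E
    rw [BCl.o_sub, BCl.o_smul, BCl.o_smul, BCl.o_pb', mul_zero, sub_zero]
  have ht' : B.tr ((1 + u) • v - u • B.pb L) = L := by
    rw [BCl.tr_sub, BCl.tr_smul, BCl.tr_smul, B.tr_pb, hv.2.1, ← sub_smul]
    rw [add_sub_cancel_right, one_smul]
  obtain ⟨w, hw, hwtr, hwo⟩ := B.closed ((1 + u) • v - u • B.pb L) (by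
    intro t ht
    obtain ⟨e, he0, het, hlt'⟩ := hs t ht
    set F := (1 + u) • v + e • B.pb B.A with hF
    have hFn : B.Nef F := B.nef_add _ _ (B.nef_smul _ _ (by linarith) hv.1)
      (B.nef_smul _ _ he0.le B.nef_A)
    have hFo : ∀ E, B.o F E = (1 + u) * B.o v E := by
      intro E
      rw [hF, BCl.o_add, BCl.o_smul, BCl.o_smul, BCl.o_pb', mul_zero, add_zero]
    have hlo : ∀ E, B.o (u • B.pb L) E = 0 := by
      intro E
      rw [BCl.o_smul, BCl.o_pb', mul_zero]
    obtain ⟨n, hn, hntr, hno⟩ := B.siu F (u • B.pb L) hFn (B.nef_smul _ _ hu.le h.nef) hlt'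
    refine ⟨n + (t - e) • B.pb B.A, B.nef_add _ _ hn (B.nef_smul _ _ (by linarith) B.nef_A), ?_,
      fun E => ?_⟩
    · rw [BCl.tr_add, BCl.tr_smul, B.tr_pb, hntr, ht', hF, BCl.tr_add, BCl.tr_smul, BCl.tr_smul,
        BCl.tr_smul, B.tr_pb, B.tr_pb, hv.2.1]
      module
    · have e1 := hno E
      rw [hFo, hlo, sub_zero] at e1
      rw [ho', BCl.o_add, BCl.o_smul, BCl.o_pb', mul_zero, add_zero]
      exact e1)
  have hle : ∀ E, (1 + u) * B.o v E ≤ B.o w E := fun E => by
    have := hwo E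
    rwa [ho'] at this
  exact ⟨w, ⟨hw, by rw [hwtr, ht'], fun E =>
    le_trans (mul_nonneg (by linarith) (hv.2.2 E)) (hle E)⟩, hle⟩

/-- Two classes `L - y`, `y ≤ z`, with the same intersection numbers are equal. -/
theorem num_eq (h : Two B L) {v w : B.V} (hv : Good B L v) (hw : Good B L w)
    (hle : ∀ E, B.o v E ≤ B.o w E)
    (h1 : B.I (B.pb L) v (B.pb B.A) (B.pb B.A) = B.I (B.pb L) w (B.pb B.A) (B.pb B.A))
    (h2 : 0 ≤ B.I v v (B.pb B.A) (B.pb B.A) - 2 * B.I v w (B.pb B.A) (B.pb B.A) +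
      B.I w w (B.pb B.A) (B.pb B.A)) : v = w := by
  by_contra hne
  obtain ⟨x, y, z, hxyz⟩ := B.pos (v - w) (by rw [BCl.tr_sub, hv.2.1, hw.2.1, sub_self])
    (fun E => by rw [BCl.o_sub]; linarith [hle E]) (sub_ne_zero.2 hne)
  obtain ⟨H, hH, hHA, hs⟩ := B.strict (v - w) ⟨x, y, z, hxyz.ne'⟩
  have hW := h.pos
  set W := B.I (B.pb L) (B.pb L) (B.pb B.A) (B.pb B.A) with hWdef
  have hLHH : 0 < B.I (B.pb L) (B.pb L) H H := by
    have e1 := B.nonneg _ _ _ _ h.nef h.nef hHA hH
    have e2 := B.nonneg _ _ _ _ h.nef h.nef B.nef_A hHA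
    rw [BCl.I3_sub] at e1
    rw [BCl.I4_sub, ← hWdef] at e2
    linarith
  set R := B.I (B.pb L) (B.pb L) H H with hR
  have f : ∀ {p q : B.V}, Good B L p → Good B L q →
      B.I p q H H * W = B.I p q (B.pb B.A) (B.pb B.A) * R := fun hp hq => prod h hp hq H H
  have h3 : B.I (v - w) (B.pb L) H H = 0 := by
    have e1 := f (good_L h) hv
    have e2 := f (good_L h) hw
    have e3 : (B.I (B.pb L) v H H - B.I (B.pb L) w H H) * W = 0 := by
      rw [sub_mul, e1, e2, h1, sub_self]
    rcases mul_eq_zero.1 e3 with e | e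
    · rw [B.symm12, BCl.I2_sub]
      exact e
    · exact absurd e hW.ne'
  have h4 := hs L h.nef hLHH h3
  rw [BCl.I1_sub, BCl.I2_sub, BCl.I2_sub, B.symm12 w v] at h4
  have e1 := f hv hv
  have e2 := f hv hw
  have e3 := f hw hw
  have h5 : (B.I v v H H - B.I v w H H - (B.I v w H H - B.I w w H H)) * W =
      (B.I v v (B.pb B.A) (B.pb B.A) - 2 * B.I v w (B.pb B.A) (B.pb B.A) +
      B.I w w (B.pb B.A) (B.pb B.A)) * R := by
    linear_combination e1 - 2 * e2 + e3
  have h6 : (B.I v v H H - B.I v w H H - (B.I v w H H - B.I w w H H)) * W < 0 :=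
    mul_neg_of_neg_of_pos h4 hW
  rw [h5] at h6
  have h7 := mul_nonneg h2 hLHH.le
  linarith

/-- Sections 1, 4 and 5 of 3796. -/
theorem extCore (B : BCl r) (L : Fin r → ℝ) : ExtCore B L := by
  intro h P S th hP hpos hmax hsup hlin hsame
  set l := B.pb L with hl
  set a := B.pb B.A with ha
  set W := B.I l l a a with hW
  have hWp : 0 < W := h.pos
  have hgl : Good B L l := good_L h
  have hgn : ∀ {v w : B.V}, Good B L v → Good B L w → 0 ≤ B.I v w a a := fun hv hw =>
    B.nonneg _ _ _ _ hv.1 hw.1 B.nef_A B.nef_A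
  have hmono : ∀ {v w x : B.V}, Good B L v → Good B L w → Good B L x →
      (∀ E, B.o v E ≤ B.o w E) → B.I w x a a ≤ B.I v x a a := fun hv hw hx hle =>
    mono (by rw [hv.2.1, hw.2.1]) hle hx.1 B.nef_A B.nef_A
  -- the bound from Siu's inequality
  have bound : ∀ x, Good B L x → ∀ t : ℝ, 0 < t → t ≤ 1 → t * th P ≤ th x →
      B.I x x a a ≤ 2 * (1 - t) * B.I l x a a := by
    intro x hx t h0 h1 hth
    by_contra hcon
    push Not at hcon
    have hr := hgn hgl hx
    have hq := hgn hx hx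
    obtain ⟨u, hu1, hu2⟩ : ∃ u : ℝ, 1 < t * (1 + u) ∧
        2 * u * B.I l x a a < (1 + u) * B.I x x a a := by
      set d := B.I x x a a - 2 * (1 - t) * B.I l x a a with hd
      have hdpos : 0 < d := by linarith
      obtain ⟨e, he0, he⟩ : ∃ e : ℝ, 0 < e ∧ 2 * e * B.I l x a a < d := by
        refine ⟨d / (2 * (2 * B.I l x a a + 1)), by positivity, ?_⟩
        have h2 : 0 < 2 * B.I l x a a + 1 := by linarith
        have h3 : 2 * (d / (2 * (2 * B.I l x a a + 1))) * B.I l x a a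
            = d * (B.I l x a a / (2 * B.I l x a a + 1)) := by field_simp
        have h4 : B.I l x a a / (2 * B.I l x a a + 1) < 1 := by rw [div_lt_one h2]; linarith
        rw [h3]
        nlinarith
      refine ⟨(1 + e) / t - 1, ?_, ?_⟩
      · have : t * (1 + ((1 + e) / t - 1)) = 1 + e := by field_simp; ring
        rw [this]
        linarith
      · have h5 : 2 * ((1 + e) / t - 1) * B.I l x a a = 2 * (1 + e - t) * B.I l x a a / t := by
          field_simp
        have h6 : (1 + ((1 + e) / t - 1)) * B.I x x a a = (1 + e) * B.I x x a a / t := by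
          field_simp; ring
        rw [h5, h6, div_lt_div_iff_of_pos_right h0]
        nlinarith
    have hu0 : 0 < u := by
      by_contra hc
      push Not at hc
      nlinarith
    obtain ⟨z, hz, hle⟩ := lemmaM B L h x u hx hu0 hu2
    have h3 := hsup x z (1 + u) hx hz (by linarith) hle
    have h4 := hmax z hz
    have h5 : (1 + u) * (t * th P) ≤ (1 + u) * th x := mul_le_mul_of_nonneg_left hth (by linarith)
    nlinarith
  have hBB : B.I P P a a = 0 := by
    refine le_antisymm ?_ (hgn hP hP)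
    have := bound P hP 1 one_pos le_rfl (by rw [one_mul])
    linarith
  have hPP : ∀ x y, B.I P P x y = 0 := by
    intro x y
    have := prod h hP hP x y
    rw [← ha, ← hl, hBB, zero_mul] at this
    rcases mul_eq_zero.1 this with e | e
    · exact e
    · exact absurd e hWp.ne'
  -- the least elements
  have hleast : ∀ t : ℝ, 0 ≤ t → t ≤ 1 → ∃ x, Good B L x ∧ (∀ E ∈ S, t * B.o P E ≤ B.o x E) ∧
      ∀ z, Good B L z → (∀ E ∈ S, t * B.o P E ≤ B.o z E) → ∀ E, B.o x E ≤ B.o z E := by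
    intro t h0 h1
    classical
    set g : B.D → ℝ := fun E => if E ∈ S then t * B.o P E else 0 with hg
    have hgz : ∀ z, Good B L z → (∀ E ∈ S, t * B.o P E ≤ B.o z E) → ∀ E, g E ≤ B.o z E := by
      intro z hz hzS E
      rw [hg]
      by_cases hE : E ∈ S
      · simp only [hE, if_true]
        exact hzS E hE
      · simp only [hE, if_false]
        exact hz.2.2 E
    have htP := good_conv hP hgl h0 h1
    obtain ⟨x, hx, hxtr, hxo, hxg, -, hxle⟩ := B.least L g ⟨t • P + (1 - t) • l, htP.1, htP.2.1,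
      htP.2.2, hgz _ htP (fun E _ => by
        rw [BCl.o_add, BCl.o_smul, BCl.o_smul, hl, BCl.o_pb', mul_zero, add_zero])⟩
    refine ⟨x, ⟨hx, hxtr, hxo⟩, fun E hE => ?_, fun z hz hzS =>
      hxle z hz.1 hz.2.1 hz.2.2 (hgz z hz hzS)⟩
    have := hxg E
    rw [hg] at this
    simpa only [hE, if_true] using this
  choose! x hxY hxS hxle using hleast
  have htB : ∀ t : ℝ, 0 ≤ t → t ≤ 1 → Good B L (t • P + (1 - t) • l) := fun t h0 h1 =>
    good_conv hP hgl h0 h1
  have htBo : ∀ (t : ℝ) E, B.o (t • P + (1 - t) • l) E = t * B.o P E := by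
    intro t E
    rw [BCl.o_add, BCl.o_smul, BCl.o_smul, hl, BCl.o_pb', mul_zero, add_zero]
  have hxB : ∀ t, 0 ≤ t → t ≤ 1 → ∀ E, B.o (x t) E ≤ t * B.o P E := by
    intro t h0 h1 E
    have := hxle t h0 h1 _ (htB t h0 h1) (fun E _ => by rw [htBo]) E
    rwa [htBo] at this
  have hxlin : ∀ t, 0 ≤ t → t ≤ 1 → th (x t) = t * th P ∧
      B.I l (x t) a a = (1 - t) * W + t * B.I l P a a := fun t h0 h1 =>
    hlin _ t (hxY t h0 h1) h0 h1 (hxB t h0 h1)
      (fun E hE => le_antisymm (hxB t h0 h1 E) (hxS t h0 h1 E hE))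
  set rho := B.I l P a a with hrhodef
  have hPl : B.I P l a a = rho := by rw [hrhodef, B.symm12]
  -- `g t` is the product of `P` and the effective difference
  let g : ℝ → ℝ := fun t => B.I (x t) P a a - (1 - t) * rho
  have hKtB : ∀ (t : ℝ) w, B.I (t • P + (1 - t) • l) w a a =
      t * B.I P w a a + (1 - t) * B.I l w a a := by
    intro t w
    rw [BCl.I1_add, BCl.I1_smul, BCl.I1_smul]
  have hxmono : ∀ t, 0 ≤ t → t ≤ 1 → ∀ w, Good B L w →
      t * B.I P w a a + (1 - t) * B.I l w a a ≤ B.I (x t) w a a := by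
    intro t h0 h1 w hw
    have := hmono (hxY t h0 h1) (htB t h0 h1) hw (fun E => by rw [htBo]; exact hxB t h0 h1 E)
    rwa [hKtB] at this
  have hg0 : ∀ t, 0 ≤ t → t ≤ 1 → 0 ≤ g t := by
    intro t h0 h1
    have h2 := hxmono t h0 h1 P hP
    rw [hBB, mul_zero, zero_add] at h2
    show 0 ≤ B.I (x t) P a a - (1 - t) * rho
    linarith
  have hx2 : ∀ t, 0 ≤ t → t ≤ 1 → (1 - t) * ((1 - t) * W + t * rho) + t * B.I (x t) P a a ≤
      B.I (x t) (x t) a a := by
    intro t h0 h1
    have h2 := hxmono t h0 h1 (x t) (hxY t h0 h1)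
    rw [(hxlin t h0 h1).2, B.symm12 P] at h2
    linarith
  have hgb : ∀ t, 0 < t → t ≤ 1 → t * g t ≤ (1 - t) ^ 2 * W := by
    intro t h0 h1
    have h2 := bound (x t) (hxY t h0.le h1) t h0 h1 (hxlin t h0.le h1).1.ge
    rw [(hxlin t h0.le h1).2] at h2
    have h3 := hx2 t h0.le h1
    show t * (B.I (x t) P a a - (1 - t) * rho) ≤ (1 - t) ^ 2 * W
    nlinarith
  have hzero : ∀ s, 0 ≤ s → s < 1 → g s ≤ 0 := by
    intro s h0 h1
    by_contra hcon
    push Not at hcon
    have key : ∀ s', s ≤ s' → s' < 1 → 0 < s' → g s * s' ≤ (1 - s) * (1 - s') * W := by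
      intro s' hss h1' h0'
      have h1s : 0 < 1 - s := by linarith
      set c := (1 - s') / (1 - s) with hc
      have hc0 : 0 ≤ c := div_nonneg (by linarith) h1s.le
      have hc1 : c ≤ 1 := by rw [hc, div_le_one h1s]; linarith
      have hcs : c * (1 - s) = 1 - s' := by rw [hc]; field_simp
      have hcv := good_conv (hxY s h0 h1.le) hP hc0 hc1
      have hcE : ∀ E ∈ S, s' * B.o P E ≤ B.o (c • x s + (1 - c) • P) E := by
        intro E hE
        have h2 := hxS s h0 h1.le E hE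
        have h3 : c * (s * B.o P E) ≤ c * B.o (x s) E := mul_le_mul_of_nonneg_left h2 hc0
        have h4 : s' = c * s + (1 - c) := by linarith
        have h5 : s' * B.o P E = c * (s * B.o P E) + (1 - c) * B.o P E := by
          conv_lhs => rw [h4]
          ring
        rw [BCl.o_add, BCl.o_smul, BCl.o_smul]
        linarith
      have hle := hxle s' h0'.le h1'.le _ hcv hcE
      have h6 := hmono (hxY s' h0'.le h1'.le) hcv hP hle
      rw [BCl.I1_add, BCl.I1_smul, BCl.I1_smul, hBB, mul_zero, add_zero] at h6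
      have h7 : c * g s ≤ g s' := by
        show c * (B.I (x s) P a a - (1 - s) * rho) ≤ B.I (x s') P a a - (1 - s') * rho
        rw [← hcs]
        linarith
      have h8 := hgb s' h0' h1'.le
      have h9 : s' * (c * g s) ≤ (1 - s') ^ 2 * W :=
        le_trans (mul_le_mul_of_nonneg_left h7 h0'.le) h8
      have h11 : g s * s' * (1 - s') ≤ (1 - s) * (1 - s') * W * (1 - s') := by
        have e1 : g s * s' * (1 - s') = (1 - s) * (s' * (c * g s)) := by rw [← hcs]; ring
        have e2 : (1 - s) * (1 - s') * W * (1 - s') = (1 - s) * ((1 - s') ^ 2 * W) := by ring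
        rw [e1, e2]
        exact mul_le_mul_of_nonneg_left h9 h1s.le
      exact le_of_mul_le_mul_right h11 (by linarith)
    obtain ⟨s', hs1, hs2, hs3, hs4⟩ : ∃ s', s ≤ s' ∧ s' < 1 ∧ 1 / 2 ≤ s' ∧
        (1 - s) * (1 - s') * W < g s / 2 := by
      refine ⟨max (max s (1 / 2)) (1 - g s / (4 * W)), le_trans (le_max_left _ _) (le_max_left _ _),
        ?_, le_trans (le_max_right _ _) (le_max_left _ _), ?_⟩
      · rw [max_lt_iff, max_lt_iff]
        have : 0 < g s / (4 * W) := by positivity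
        exact ⟨⟨h1, by norm_num⟩, by linarith⟩
      · set m := max (max s (1 / 2)) (1 - g s / (4 * W)) with hm
        have h2 : 1 - g s / (4 * W) ≤ m := le_max_right _ _
        have h3 : 1 - m ≤ g s / (4 * W) := by linarith
        have hm1 : m ≤ 1 := by
          rw [hm, max_le_iff, max_le_iff]
          have : 0 < g s / (4 * W) := by positivity
          exact ⟨⟨h1.le, by norm_num⟩, by linarith⟩
        have h4 : (1 - s) * (1 - m) ≤ 1 * (g s / (4 * W)) := by
          refine mul_le_mul (by linarith) h3 (by linarith) zero_le_one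
        have h5 : (1 - s) * (1 - m) * W ≤ 1 * (g s / (4 * W)) * W :=
          mul_le_mul_of_nonneg_right h4 hWp.le
        have h6 : 1 * (g s / (4 * W)) * W = g s / 4 := by field_simp
        linarith
    have := key s' hs1 hs2 (by linarith)
    nlinarith
  have hxeq : ∀ s, 0 ≤ s → s < 1 → x s = s • P + (1 - s) • l := by
    intro s h0 h1
    have hg : g s = 0 := le_antisymm (hzero s h0 h1) (hg0 s h0 h1.le)
    have hxBs : B.I (x s) P a a = (1 - s) * rho := by
      have : B.I (x s) P a a - (1 - s) * rho = 0 := hg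
      linarith
    have e0 : B.I l (s • P + (1 - s) • l) a a = (1 - s) * W + s * rho := by
      rw [B.symm12, hKtB, hPl, ← hW]
      ring
    have e1 : B.I (x s) (s • P + (1 - s) • l) a a =
        s * ((1 - s) * rho) + (1 - s) * ((1 - s) * W + s * rho) := by
      rw [B.symm12, hKtB, B.symm12 P, hxBs, (hxlin s h0 h1.le).2]
    have e2 : B.I (s • P + (1 - s) • l) (s • P + (1 - s) • l) a a =
        s * ((1 - s) * rho) + (1 - s) * ((1 - s) * W + s * rho) := by
      rw [hKtB, e0, B.symm12 P, hKtB, hBB, ← hrhodef]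
      ring
    refine num_eq h (hxY s h0 h1.le) (htB s h0 h1.le) (fun E => ?_) ?_ ?_
    · rw [htBo]
      exact hxB s h0 h1.le E
    · rw [← hl, ← ha, e0, (hxlin s h0 h1.le).2]
    · have h5 := hx2 s h0 h1.le
      rw [hxBs] at h5
      rw [← ha, e1, e2]
      linarith
  refine ⟨hPP, ?_, ?_⟩
  · intro w hw t h0 h1 hyS
    rcases h1.lt_or_eq with h2 | h2
    · intro E
      rw [← htBo, ← hxeq t h0 h2]
      exact hxle t h0 h1 w hw hyS E
    · subst h2
      intro E
      rw [one_mul]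
      by_contra hcon
      push Not at hcon
      have hBE : 0 < B.o P E := lt_of_le_of_lt (hw.2.2 E) hcon
      obtain ⟨s, hs1, hs2⟩ : ∃ s, B.o w E / B.o P E < s ∧ s < 1 :=
        exists_between (by rwa [div_lt_one hBE])
      have hs0 : 0 ≤ s := le_trans (div_nonneg (hw.2.2 E) hBE.le) hs1.le
      have h3 := hxle s hs0 hs2.le w hw (fun F hF => by
        have h4 := hyS F hF
        have h5 := hP.2.2 F
        nlinarith) E
      rw [hxeq s hs0 hs2, htBo] at h3
      rw [div_lt_iff₀ hBE] at hs1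
      linarith
  · intro w hgw hle
    have h1 := hsame w hgw hle
    have h2 : B.I w P a a ≤ 0 := by
      rw [← hBB]
      exact hmono hP hgw hP hle
    have h3 : B.I w w a a ≤ 0 := by
      have := hmono hP hgw hgw hle
      rw [B.symm12 P] at this
      linarith
    have h4 := hgn hgw hgw
    have h5 := hgn hgw hP
    have heq := num_eq h hP hgw hle h1.symm (by
      rw [← ha, hBB, B.symm12 P]
      linarith)
    intro E
    rw [← heq]

end Pool.Agent.H88.XF
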