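import Mathlib

/-!
# Extremal classes

`X` is a fourfold with trivial canonical class, `L` is a nef divisor of numerical dimension two, and no
prime divisor `G` on `X` has `L^2.G = 0`. The classes `L - y`, `y ≥ 0` an exceptional b-divisor, which
are nef as b-divisor classes, form a convex set, and all products of two of them are multiples of the
class `L^2`. The theorem: if the coefficient of `y` at a prime divisor `E₀` is maximal, then `y` is unique,
`(L - y)^2 = 0`, and `y` is proportional to the smallest element with positive coefficient at `E₀`.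
-/

namespace Pool.Agent.H88.XF

/-- The b-nef classes `L - y`. `D` is the set of the prime divisors over `X`. -/
structure Ext (D : Type) where
  /-- the b-divisors `y ≥ 0` such that `L - y` is b-nef -/
  N : Set (D → ℝ)
  /-- the product of `y` and `z` is numerically equal to `- q y z` times the class `L^2` -/
  q : (D → ℝ) → (D → ℝ) → ℝ
  nonneg : ∀ y ∈ N, ∀ E, 0 ≤ y E
  zero_mem : (0 : D → ℝ) ∈ N
  conv : ∀ y ∈ N, ∀ z ∈ N, ∀ s : ℝ, 0 ≤ s → s ≤ 1 → s • y + (1 - s) • z ∈ N
  symm : ∀ y ∈ N, ∀ z ∈ N, q y z = q z y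
  /-- `L . y = 0` -/
  q_zero : ∀ y ∈ N, q 0 y = 0
  affine : ∀ y ∈ N, ∀ z ∈ N, ∀ w ∈ N, ∀ s : ℝ, 0 ≤ s → s ≤ 1 →
    q (s • y + (1 - s) • z) w = s * q y w + (1 - s) * q z w
  /-- the product of an effective b-divisor and a b-nef class is not negative -/
  mono : ∀ y ∈ N, ∀ z ∈ N, ∀ w ∈ N, y ≤ z → q y w ≤ q z w
  /-- `(L - y)^2` is not negative -/
  le_one : ∀ y ∈ N, q y y ≤ 1
  /-- Hodge index theorem -/
  hodge : ∀ y ∈ N, ∀ z ∈ N, q y y - 2 * q y z + q z z ≤ 0 → y = z
  /-- the divisorial Zariski decomposition of `L - t E` -/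
  least : ∀ (E : D) (t : ℝ), (∃ y ∈ N, t ≤ y E) → ∃ x ∈ N, t ≤ x E ∧ ∀ y ∈ N, t ≤ y E → x ≤ y
  /-- Siu's criterion: if `s < 2 / (1 + q y y)` then `L - s y` is pseudoeffective -/
  siu : ∀ y ∈ N, ∀ s : ℝ, 0 ≤ s → s * (1 + q y y) < 2 → ∃ z ∈ N, s • y ≤ z
  /-- the pseudoeffective cone is closed -/
  top : ∀ E : D, ∃ y ∈ N, ∀ z ∈ N, z E ≤ y E

variable {D : Type} (A : Ext D)

namespace Ext

theorem smul_mem {y : D → ℝ} (hy : y ∈ A.N) {s : ℝ} (h0 : 0 ≤ s) (h1 : s ≤ 1) : s • y ∈ A.N := by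
  have h := A.conv y hy 0 A.zero_mem s h0 h1
  simpa using h

theorem q_smul {y w : D → ℝ} (hy : y ∈ A.N) (hw : w ∈ A.N) {s : ℝ} (h0 : 0 ≤ s) (h1 : s ≤ 1) :
    A.q (s • y) w = s * A.q y w := by
  have h := A.affine y hy 0 A.zero_mem w hw s h0 h1
  rw [A.q_zero w hw] at h
  simpa using h

/-- A bound for the selfintersection, from Siu's criterion. -/
theorem bound {E : D} {T : ℝ} (hT : 0 < T) (hmax : ∀ z ∈ A.N, z E ≤ T) {x : D → ℝ} (hx : x ∈ A.N) {s : ℝ}
    (h0 : 0 ≤ s) (hs : s * T ≤ x E) : 2 * s - 1 ≤ A.q x x := by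
  have hq0 : 0 ≤ A.q x x := by
    have h2 := A.mono 0 A.zero_mem x hx x hx (fun F => A.nonneg x hx F)
    rwa [A.q_zero x hx] at h2
  by_contra hcon
  push_neg at hcon
  have hq : 1 + A.q x x < 2 * s := by linarith
  have hqs : 0 < s := by linarith
  have hp : 0 < 1 + A.q x x := by linarith
  -- choose `c` with `1 / s < c < 2 / (1 + q)`
  obtain ⟨c, hc1, hc2⟩ : ∃ c, 1 / s < c ∧ c < 2 / (1 + A.q x x) := by
    apply exists_between
    rw [div_lt_div_iff₀ hqs hp]
    linarith
  have hc0 : 0 < c := lt_trans (by positivity) hc1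
  obtain ⟨z, hz, hle⟩ := A.siu x hx c hc0.le (by rwa [lt_div_iff₀ hp] at hc2)
  have h1 : c * x E ≤ z E := hle E
  have h2 := hmax z hz
  have h3 : 1 < c * s := by
    rw [div_lt_iff₀ hqs] at hc1
    exact hc1
  have h4 : c * (s * T) ≤ c * x E := mul_le_mul_of_nonneg_left hs hc0.le
  have h5 : T < c * s * T := by nlinarith
  nlinarith

/-- **Theorem.** There is a class with the maximal coefficient at `E`. If this is positive then the
selfintersection of the class `L - B` is zero, and every `y` is at least the multiple of `B` with the same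
coefficient at `E`. -/
theorem extremal (E : D) : ∃ B ∈ A.N, (∀ z ∈ A.N, z E ≤ B E) ∧
    (0 < B E → A.q B B = 1 ∧ ∀ y ∈ A.N, y E • B ≤ B E • y) := by
  obtain ⟨B, hB, hmax⟩ := A.top E
  refine ⟨B, hB, hmax, fun hT => ?_⟩
  set T := B E with hTdef
  have hBB : A.q B B = 1 := by
    refine le_antisymm (A.le_one B hB) ?_
    have := A.bound hT hmax hB (s := 1) zero_le_one (by rw [one_mul])
    linarith
  refine ⟨hBB, fun y hy => ?_⟩
  -- uniqueness of the maximal element
  have huniq : ∀ z ∈ A.N, T ≤ z E → z = B := by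
    intro z hz hzT
    have hzz : (1 : ℝ) ≤ A.q z z := by
      have := A.bound hT hmax hz (s := 1) zero_le_one (by rwa [one_mul])
      linarith
    have hm := A.conv z hz B hB (1 / 2) (by norm_num) (by norm_num)
    have hmT : (1 : ℝ) * T ≤ ((1 / 2 : ℝ) • z + (1 - 1 / 2 : ℝ) • B) E := by
      simp only [Pi.add_apply, Pi.smul_apply, smul_eq_mul]
      linarith
    have hmm := A.bound hT hmax hm (s := 1) zero_le_one hmT
    rw [A.affine z hz B hB _ hm (1 / 2) (by norm_num) (by norm_num), A.symm z hz _ hm, A.symm B hB _ hm,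
      A.affine z hz B hB z hz (1 / 2) (by norm_num) (by norm_num),
      A.affine z hz B hB B hB (1 / 2) (by norm_num) (by norm_num), A.symm B hB z hz] at hmm
    refine A.hodge z hz B hB ?_
    have h1 := A.le_one z hz
    linarith
  -- the least elements
  have hleast : ∀ s : ℝ, 0 ≤ s → s ≤ 1 → ∃ x ∈ A.N, s * T ≤ x E ∧ ∀ z ∈ A.N, s * T ≤ z E → x ≤ z := by
    intro s h0 h1
    exact A.least E (s * T) ⟨B, hB, by nlinarith⟩
  choose! x hxN hxE hxle using hleast
  have hxB : ∀ s, 0 ≤ s → s ≤ 1 → x s ≤ s • B := fun s h0 h1 =>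
    hxle s h0 h1 _ (A.smul_mem hB h0 h1) (by simp [← hTdef])
  -- `u = q B x`
  have hu : ∀ s, 0 ≤ s → s ≤ 1 → A.q (x s) B ≤ s := by
    intro s h0 h1
    have h := A.mono (x s) (hxN s h0 h1) _ (A.smul_mem hB h0 h1) B hB (hxB s h0 h1)
    rwa [A.q_smul hB hB h0 h1, hBB, mul_one] at h
  have hv : ∀ s, 0 ≤ s → s ≤ 1 → A.q (x s) (x s) ≤ s * A.q (x s) B := by
    intro s h0 h1
    have h := A.mono (x s) (hxN s h0 h1) _ (A.smul_mem hB h0 h1) (x s) (hxN s h0 h1) (hxB s h0 h1)
    rwa [A.q_smul hB (hxN s h0 h1) h0 h1, A.symm B hB (x s) (hxN s h0 h1)] at h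
  have hw : ∀ s, 0 ≤ s → s ≤ 1 → 2 * s - 1 ≤ s * A.q (x s) B := fun s h0 h1 =>
    le_trans (A.bound hT hmax (hxN s h0 h1) h0 (hxE s h0 h1)) (hv s h0 h1)
  -- `s - u` is zero
  have hzero : ∀ s, 0 ≤ s → s < 1 → s ≤ A.q (x s) B := by
    intro s h0 h1
    by_contra hcon
    push_neg at hcon
    set g := s - A.q (x s) B with hg
    have hgpos : 0 < g := by linarith
    -- the bound at `s'` near `1`
    have key : ∀ s', s ≤ s' → s' < 1 → 0 < s' → g * s' ≤ (1 - s) * (1 - s') := by
      intro s' hss h1' h0'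
      have h0s : 0 ≤ s' := le_trans h0 hss
      set a := (1 - s') / (1 - s) with ha
      have h1s : 0 < 1 - s := by linarith
      have ha0 : 0 ≤ a := div_nonneg (by linarith) h1s.le
      have ha1 : a ≤ 1 := by rw [ha, div_le_one h1s]; linarith
      have has : a * (1 - s) = 1 - s' := by rw [ha]; field_simp
      have hc := A.conv (x s) (hxN s h0 h1.le) B hB a ha0 ha1
      have hcE : s' * T ≤ (a • x s + (1 - a) • B) E := by
        have h2 := hxE s h0 h1.le
        have h3 : a * (s * T) ≤ a * x s E := mul_le_mul_of_nonneg_left h2 ha0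
        have h4 : s' = a * s + (1 - a) := by linarith
        have h5 : s' * T = a * (s * T) + (1 - a) * T := by rw [h4]; ring
        simp only [Pi.add_apply, Pi.smul_apply, smul_eq_mul, ← hTdef]
        linarith
      have hle := hxle s' h0s h1'.le _ hc hcE
      have h6 := A.mono (x s') (hxN s' h0s h1'.le) _ hc B hB hle
      rw [A.affine _ (hxN s h0 h1.le) B hB B hB a ha0 ha1, hBB, mul_one] at h6
      have h7 := hw s' h0s h1'.le
      -- `q (x s') B ≤ a u + (1 - a)`, `u = s - g`
      have h8 : A.q (x s') B ≤ s' - a * g := by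
        have : a * A.q (x s) B + (1 - a) = s' - a * g := by rw [hg]; linarith
        linarith
      have h9 : s' * A.q (x s') B ≤ s' * (s' - a * g) := mul_le_mul_of_nonneg_left h8 h0s
      have h10 : s' * (a * g) ≤ (1 - s') ^ 2 := by nlinarith
      have h11 : s' * g * (1 - s') ≤ (1 - s) * (1 - s') * (1 - s') := by
        have : s' * g * (1 - s') = (1 - s) * (s' * (a * g)) := by rw [← has]; ring
        rw [this]
        nlinarith
      have h12 : 0 < 1 - s' := by linarith
      have h13 := le_of_mul_le_mul_right h11 h12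
      linarith
    -- choose `s'`
    obtain ⟨s', hs1, hs2, hs3, hs4⟩ : ∃ s', s ≤ s' ∧ s' < 1 ∧ 1 / 2 ≤ s' ∧ (1 - s) * (1 - s') < g / 2 := by
      refine ⟨max (max s (1 / 2)) (1 - g / 4), le_trans (le_max_left _ _) (le_max_left _ _), ?_,
        le_trans (le_max_right _ _) (le_max_left _ _), ?_⟩
      · rw [max_lt_iff, max_lt_iff]
        exact ⟨⟨h1, by norm_num⟩, by linarith⟩
      · have h2 : 1 - g / 4 ≤ max (max s (1 / 2)) (1 - g / 4) := le_max_right _ _
        have h3 : 1 - max (max s (1 / 2)) (1 - g / 4) ≤ g / 4 := by linarith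
        have h4 : (1 - s) * (1 - max (max s (1 / 2)) (1 - g / 4)) ≤ 1 * (g / 4) := by
          refine mul_le_mul (by linarith) h3 ?_ zero_le_one
          have : max (max s (1 / 2)) (1 - g / 4) ≤ 1 := by
            rw [max_le_iff, max_le_iff]
            exact ⟨⟨h1.le, by norm_num⟩, by linarith⟩
          linarith
        linarith
    have := key s' hs1 hs2 (by linarith)
    nlinarith
  have hxeq : ∀ s, 0 ≤ s → s < 1 → x s = s • B := by
    intro s h0 h1
    refine A.hodge _ (hxN s h0 h1.le) _ (A.smul_mem hB h0 h1.le) ?_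
    have h2 : A.q (x s) B = s := le_antisymm (hu s h0 h1.le) (hzero s h0 h1)
    have h3 : A.q (x s) (s • B) = s * s := by
      rw [A.symm _ (hxN s h0 h1.le) _ (A.smul_mem hB h0 h1.le), A.q_smul hB (hxN s h0 h1.le) h0 h1.le,
        A.symm B hB _ (hxN s h0 h1.le), h2]
    have h4 : A.q (s • B) (s • B) = s * s := by
      rw [A.q_smul hB (A.smul_mem hB h0 h1.le) h0 h1.le, A.symm B hB _ (A.smul_mem hB h0 h1.le),
        A.q_smul hB hB h0 h1.le, hBB, mul_one]
    have h5 := hv s h0 h1.le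
    rw [h2] at h5
    rw [h3, h4]
    linarith
  -- conclusion
  intro F
  simp only [Pi.smul_apply, smul_eq_mul]
  have hyT : y E ≤ T := hmax y hy
  have hy0 : 0 ≤ y E := A.nonneg y hy E
  rcases hyT.lt_or_eq with h | h
  · have hs0 : 0 ≤ y E / T := by positivity
    have hs1 : y E / T < 1 := by rwa [div_lt_one hT]
    have hyE : y E / T * T ≤ y E := by rw [div_mul_cancel₀ _ hT.ne']
    have h2 := hxle _ hs0 hs1.le y hy hyE F
    rw [hxeq _ hs0 hs1] at h2
    simp only [Pi.smul_apply, smul_eq_mul] at h2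
    have h3 : y E * B F = T * (y E / T * B F) := by field_simp
    rw [h3]
    exact mul_le_mul_of_nonneg_left h2 hT.le
  · rw [huniq y hy h.ge, ← hTdef]

end Ext

end Pool.Agent.H88.XF
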