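import Mathlib

/-!
# Extremal b-nef classes

`X` is a projective manifold with trivial canonical class, `L` is a nef divisor of numerical dimension
two. The b-divisors `y ≥ 0` over `X` such that `L - y` is nef as a b-divisor class form a convex set
`Y`, which contains the infima of its subsets. All products `(L - y).(L - z)` are multiples
`K y z` of the class `L^2`; in particular `L.(L - y)` is `K 0 y` times `L^2`.
-/

namespace Pool.Agent.H88.XF

/-- The b-nef classes `L - y`. `D` is the set of the prime divisors over `X`. -/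
structure BCone (D : Type) where
  /-- the b-divisors `y ≥ 0` such that `L - y` is b-nef -/
  Y : Set (D → ℝ)
  /-- the product of `L - y` and `L - z` is `K y z` times the class `L^2` -/
  K : (D → ℝ) → (D → ℝ) → ℝ
  nonneg : ∀ y ∈ Y, ∀ E, 0 ≤ y E
  zero_mem : (0 : D → ℝ) ∈ Y
  conv : ∀ y ∈ Y, ∀ z ∈ Y, ∀ s : ℝ, 0 ≤ s → s ≤ 1 → s • y + (1 - s) • z ∈ Y
  /-- the supremum of a family of metrics with semipositive curvature -/
  inf : ∀ S ⊆ Y, S.Nonempty → (fun E => sInf ((fun y : D → ℝ => y E) '' S)) ∈ Y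
  symm : ∀ y ∈ Y, ∀ z ∈ Y, K y z = K z y
  affine : ∀ y ∈ Y, ∀ z ∈ Y, ∀ w ∈ Y, ∀ s : ℝ, 0 ≤ s → s ≤ 1 →
    K (s • y + (1 - s) • z) w = s * K y w + (1 - s) * K z w
  /-- the product of an effective b-divisor and a b-nef class is not negative -/
  anti : ∀ y ∈ Y, ∀ z ∈ Y, ∀ w ∈ Y, y ≤ z → K z w ≤ K y w
  nonneg_K : ∀ y ∈ Y, ∀ z ∈ Y, 0 ≤ K y z
  one : K 0 0 = 1
  /-- Hodge index theorem: if `L.(y - z) = 0` then the selfintersection of `y - z` is not positive, and
  it is zero only if `y = z` -/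
  hodge : ∀ y ∈ Y, ∀ z ∈ Y, K 0 y = K 0 z → 0 ≤ K y y - 2 * K y z + K z z → y = z
  /-- Siu's criterion: `L - (1 + u) y` is pseudoeffective -/
  siu : ∀ y ∈ Y, ∀ u : ℝ, 0 < u → 2 * u * K 0 y < (1 + u) * K y y → ∃ z ∈ Y, (1 + u) • y ≤ z

variable {D : Type} (A : BCone D)

namespace BCone

theorem smul_mem {y : D → ℝ} (hy : y ∈ A.Y) {s : ℝ} (h0 : 0 ≤ s) (h1 : s ≤ 1) : s • y ∈ A.Y := by
  have h := A.conv y hy 0 A.zero_mem s h0 h1
  simpa using h

theorem K_smul {y w : D → ℝ} (hy : y ∈ A.Y) (hw : w ∈ A.Y) {s : ℝ} (h0 : 0 ≤ s) (h1 : s ≤ 1) :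
    A.K (s • y) w = s * A.K y w + (1 - s) * A.K 0 w := by
  have h := A.affine y hy 0 A.zero_mem w hw s h0 h1
  simpa using h

/-- Let `B` be an element with the maximal value `th B > 0`. Then `(L - B)^2 = 0`, and `t B` is the
smallest element which is at least `t B` on the divisors of `S`. -/
theorem extremal {B : D → ℝ} (hB : B ∈ A.Y) (S : Set D) (th : (D → ℝ) → ℝ) (hpos : 0 < th B)
    (hsup : ∀ y ∈ A.Y, ∀ z ∈ A.Y, ∀ c : ℝ, 1 ≤ c → c • y ≤ z → c * th y ≤ th z)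
    (hmax : ∀ y ∈ A.Y, th y ≤ th B)
    (hS : ∀ y ∈ A.Y, ∀ t : ℝ, 0 ≤ t → t ≤ 1 → (∀ E ∈ S, t * B E ≤ y E) → t * th B ≤ th y)
    (hbeta : ∀ y ∈ A.Y, ∀ t : ℝ, 0 ≤ t → t ≤ 1 → y ≤ t • B → (∀ E ∈ S, t * B E ≤ y E) →
      A.K 0 y = 1 - t * (1 - A.K 0 B)) :
    A.K B B = 0 ∧ ∀ y ∈ A.Y, ∀ t : ℝ, 0 ≤ t → t ≤ 1 → (∀ E ∈ S, t * B E ≤ y E) → t • B ≤ y := by
  -- the bound from Siu's criterion
  have bound : ∀ x ∈ A.Y, ∀ t : ℝ, 0 < t → t ≤ 1 → t * th B ≤ th x →
      A.K x x ≤ 2 * (1 - t) * A.K 0 x := by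
    intro x hx t h0 h1 hth
    by_contra hcon
    push_neg at hcon
    have hr := A.nonneg_K 0 A.zero_mem x hx
    have hq := A.nonneg_K x hx x hx
    -- `u` slightly larger than `(1 - t) / t`
    obtain ⟨u, hu1, hu2⟩ : ∃ u : ℝ, 1 < t * (1 + u) ∧ 2 * u * A.K 0 x < (1 + u) * A.K x x := by
      set d := A.K x x - 2 * (1 - t) * A.K 0 x with hd
      have hdpos : 0 < d := by linarith
      -- take `1 + u = (1 + e) / t`
      obtain ⟨e, he0, he⟩ : ∃ e : ℝ, 0 < e ∧ 2 * e * A.K 0 x < d := by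
        refine ⟨d / (2 * (2 * A.K 0 x + 1)), by positivity, ?_⟩
        have h2 : 0 < 2 * A.K 0 x + 1 := by linarith
        have h3 : 2 * (d / (2 * (2 * A.K 0 x + 1))) * A.K 0 x
            = d * (A.K 0 x / (2 * A.K 0 x + 1)) := by field_simp
        have h4 : A.K 0 x / (2 * A.K 0 x + 1) < 1 := by rw [div_lt_one h2]; linarith
        rw [h3]
        nlinarith
      refine ⟨(1 + e) / t - 1, ?_, ?_⟩
      · have : t * (1 + ((1 + e) / t - 1)) = 1 + e := by field_simp; ring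
        rw [this]
        linarith
      · have h5 : 2 * ((1 + e) / t - 1) * A.K 0 x = 2 * (1 + e - t) * A.K 0 x / t := by field_simp
        have h6 : (1 + ((1 + e) / t - 1)) * A.K x x = (1 + e) * A.K x x / t := by field_simp; ring
        rw [h5, h6, div_lt_div_iff_of_pos_right h0]
        nlinarith
    have hu0 : 0 < u := by
      by_contra hc
      push_neg at hc
      nlinarith
    obtain ⟨z, hz, hle⟩ := A.siu x hx u hu0 hu2
    have h3 := hsup x hx z hz (1 + u) (by linarith) hle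
    have h4 := hmax z hz
    have h5 : (1 + u) * (t * th B) ≤ (1 + u) * th x := mul_le_mul_of_nonneg_left hth (by linarith)
    nlinarith
  have hBB : A.K B B = 0 := by
    refine le_antisymm ?_ (A.nonneg_K B hB B hB)
    have := bound B hB 1 one_pos le_rfl (by rw [one_mul])
    linarith
  refine ⟨hBB, ?_⟩
  -- the least elements
  have hleast : ∀ t : ℝ, 0 ≤ t → t ≤ 1 → ∃ x ∈ A.Y, (∀ E ∈ S, t * B E ≤ x E) ∧
      ∀ z ∈ A.Y, (∀ E ∈ S, t * B E ≤ z E) → x ≤ z := by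
    intro t h0 h1
    set M : Set (D → ℝ) := {y | y ∈ A.Y ∧ ∀ E ∈ S, t * B E ≤ y E} with hM
    have hmem : t • B ∈ A.Y := A.smul_mem hB h0 h1
    have hne : M.Nonempty := ⟨t • B, hmem, fun E _ => le_rfl⟩
    refine ⟨_, A.inf M (fun y hy => hy.1) hne, fun E hE => ?_, fun z hz hzS E => ?_⟩
    · refine le_csInf (hne.image _) ?_
      rintro _ ⟨y, hy, rfl⟩
      exact hy.2 E hE
    · refine csInf_le ⟨0, ?_⟩ ⟨z, ⟨hz, hzS⟩, rfl⟩
      rintro _ ⟨y, hy, rfl⟩
      exact A.nonneg y hy.1 E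
  choose! x hxY hxS hxle using hleast
  have htB : ∀ t : ℝ, 0 ≤ t → t ≤ 1 → t • B ∈ A.Y := fun t h0 h1 => A.smul_mem hB h0 h1
  have hxB : ∀ t, 0 ≤ t → t ≤ 1 → x t ≤ t • B := fun t h0 h1 =>
    hxle t h0 h1 _ (htB t h0 h1) fun E _ => le_rfl
  have hrho : ∀ t, 0 ≤ t → t ≤ 1 → A.K 0 (x t) = 1 - t * (1 - A.K 0 B) := fun t h0 h1 =>
    hbeta _ (hxY t h0 h1) t h0 h1 (hxB t h0 h1) (hxS t h0 h1)
  have hB0 : A.K B 0 = A.K 0 B := A.symm B hB 0 A.zero_mem
  -- `g t` is the product of `L - B` and `t B - x t`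
  set rho := A.K 0 B with hrhodef
  let g : ℝ → ℝ := fun t => A.K (x t) B - (1 - t) * rho
  have hKtB : ∀ t, 0 ≤ t → t ≤ 1 → ∀ w ∈ A.Y, A.K (t • B) w = t * A.K B w + (1 - t) * A.K 0 w :=
    fun t h0 h1 w hw => A.K_smul hB hw h0 h1
  have hg0 : ∀ t, 0 ≤ t → t ≤ 1 → 0 ≤ g t := by
    intro t h0 h1
    have h := A.anti _ (hxY t h0 h1) _ (htB t h0 h1) B hB (hxB t h0 h1)
    rw [hKtB t h0 h1 B hB, hBB, mul_zero, zero_add] at h
    show 0 ≤ A.K (x t) B - (1 - t) * rho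
    linarith
  -- the product of `L - x` and `t B - x`
  have hx2 : ∀ t, 0 ≤ t → t ≤ 1 → (1 - t) * (1 - t * (1 - rho)) + t * A.K (x t) B ≤ A.K (x t) (x t) := by
    intro t h0 h1
    have h := A.anti _ (hxY t h0 h1) _ (htB t h0 h1) (x t) (hxY t h0 h1) (hxB t h0 h1)
    rw [hKtB t h0 h1 _ (hxY t h0 h1), hrho t h0 h1, A.symm B hB _ (hxY t h0 h1)] at h
    linarith
  have hgb : ∀ t, 0 < t → t ≤ 1 → t * g t ≤ (1 - t) ^ 2 := by
    intro t h0 h1
    have h2 := bound (x t) (hxY t h0.le h1) t h0 h1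
      (hS _ (hxY t h0.le h1) t h0.le h1 (hxS t h0.le h1))
    rw [hrho t h0.le h1] at h2
    have h3 := hx2 t h0.le h1
    show t * (A.K (x t) B - (1 - t) * rho) ≤ (1 - t) ^ 2
    nlinarith
  have hzero : ∀ s, 0 ≤ s → s < 1 → g s ≤ 0 := by
    intro s h0 h1
    by_contra hcon
    push_neg at hcon
    have key : ∀ s', s ≤ s' → s' < 1 → 0 < s' → g s * s' ≤ (1 - s) * (1 - s') := by
      intro s' hss h1' h0'
      have h1s : 0 < 1 - s := by linarith
      set a := (1 - s') / (1 - s) with ha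
      have ha0 : 0 ≤ a := div_nonneg (by linarith) h1s.le
      have ha1 : a ≤ 1 := by rw [ha, div_le_one h1s]; linarith
      have has : a * (1 - s) = 1 - s' := by rw [ha]; field_simp
      have hc := A.conv (x s) (hxY s h0 h1.le) B hB a ha0 ha1
      have hcE : ∀ E ∈ S, s' * B E ≤ (a • x s + (1 - a) • B) E := by
        intro E hE
        have h2 := hxS s h0 h1.le E hE
        have h3 : a * (s * B E) ≤ a * x s E := mul_le_mul_of_nonneg_left h2 ha0
        have h4 : s' = a * s + (1 - a) := by linarith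
        have h5 : s' * B E = a * (s * B E) + (1 - a) * B E := by rw [h4]; ring
        simp only [Pi.add_apply, Pi.smul_apply, smul_eq_mul]
        linarith
      have hle := hxle s' h0'.le h1'.le _ hc hcE
      have h6 := A.anti _ (hxY s' h0'.le h1'.le) _ hc B hB hle
      rw [A.affine _ (hxY s h0 h1.le) B hB B hB a ha0 ha1, hBB, mul_zero, add_zero] at h6
      -- `a g(s) ≤ g(s')`
      have h7 : a * g s ≤ g s' := by
        show a * (A.K (x s) B - (1 - s) * rho) ≤ A.K (x s') B - (1 - s') * rho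
        rw [← has]
        linarith
      have h8 := hgb s' h0' h1'.le
      have h9 : s' * (a * g s) ≤ (1 - s') ^ 2 := le_trans (mul_le_mul_of_nonneg_left h7 h0'.le) h8
      have h11 : g s * s' * (1 - s') ≤ (1 - s) * (1 - s') * (1 - s') := by
        have : g s * s' * (1 - s') = (1 - s) * (s' * (a * g s)) := by rw [← has]; ring
        rw [this]
        nlinarith
      exact le_of_mul_le_mul_right h11 (by linarith)
    obtain ⟨s', hs1, hs2, hs3, hs4⟩ : ∃ s', s ≤ s' ∧ s' < 1 ∧ 1 / 2 ≤ s' ∧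
        (1 - s) * (1 - s') < g s / 2 := by
      refine ⟨max (max s (1 / 2)) (1 - g s / 4), le_trans (le_max_left _ _) (le_max_left _ _), ?_,
        le_trans (le_max_right _ _) (le_max_left _ _), ?_⟩
      · rw [max_lt_iff, max_lt_iff]
        exact ⟨⟨h1, by norm_num⟩, by linarith⟩
      · have h2 : 1 - g s / 4 ≤ max (max s (1 / 2)) (1 - g s / 4) := le_max_right _ _
        have h3 : 1 - max (max s (1 / 2)) (1 - g s / 4) ≤ g s / 4 := by linarith
        have h4 : (1 - s) * (1 - max (max s (1 / 2)) (1 - g s / 4)) ≤ 1 * (g s / 4) := by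
          refine mul_le_mul (by linarith) h3 ?_ zero_le_one
          have : max (max s (1 / 2)) (1 - g s / 4) ≤ 1 := by
            rw [max_le_iff, max_le_iff]
            exact ⟨⟨h1.le, by norm_num⟩, by linarith⟩
          linarith
        linarith
    have := key s' hs1 hs2 (by linarith)
    nlinarith
  have hxeq : ∀ s, 0 ≤ s → s < 1 → x s = s • B := by
    intro s h0 h1
    have hg : g s = 0 := le_antisymm (hzero s h0 h1) (hg0 s h0 h1.le)
    have hxBs : A.K (x s) B = (1 - s) * rho := by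
      have : A.K (x s) B - (1 - s) * rho = 0 := hg
      linarith
    have e0 : A.K 0 (s • B) = 1 - s * (1 - rho) := by
      rw [A.symm 0 A.zero_mem _ (htB s h0 h1.le), hKtB s h0 h1.le 0 A.zero_mem, hB0, A.one]
      ring
    have e1 : A.K (x s) (s • B) = s * ((1 - s) * rho) + (1 - s) * (1 - s * (1 - rho)) := by
      rw [A.symm _ (hxY s h0 h1.le) _ (htB s h0 h1.le), hKtB s h0 h1.le _ (hxY s h0 h1.le),
        A.symm B hB _ (hxY s h0 h1.le), hxBs, hrho s h0 h1.le]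
    have e2 : A.K (s • B) (s • B) = s * ((1 - s) * rho) + (1 - s) * (1 - s * (1 - rho)) := by
      rw [hKtB s h0 h1.le _ (htB s h0 h1.le), A.symm B hB _ (htB s h0 h1.le),
        hKtB s h0 h1.le B hB, hBB, e0]
      ring
    refine A.hodge _ (hxY s h0 h1.le) _ (htB s h0 h1.le) ?_ ?_
    · rw [hrho s h0 h1.le, e0]
    · have h5 := hx2 s h0 h1.le
      rw [hxBs] at h5
      rw [e1, e2]
      linarith
  -- conclusion
  intro y hy t h0 h1 hyS
  rcases h1.lt_or_eq with h | h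
  · rw [← hxeq t h0 h]
    exact hxle t h0 h1 y hy hyS
  · subst h
    intro E
    rw [one_smul]
    -- `s B ≤ y` for all `s < 1`
    by_contra hcon
    push_neg at hcon
    have hBE : 0 < B E := lt_of_le_of_lt (A.nonneg y hy E) hcon
    obtain ⟨s, hs1, hs2⟩ : ∃ s, y E / B E < s ∧ s < 1 := exists_between (by rwa [div_lt_one hBE])
    have hs0 : 0 ≤ s := le_trans (div_nonneg (A.nonneg y hy E) hBE.le) hs1.le
    have h2 := hxle s hs0 hs2.le y hy (fun F hF => by
      have h3 := hyS F hF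
      have h4 := A.nonneg B hB F
      nlinarith) E
    rw [hxeq s hs0 hs2] at h2
    simp only [Pi.smul_apply, smul_eq_mul] at h2
    rw [div_lt_iff₀ hBE] at hs1
    linarith

/-- **Case D.** `X` is the set of the prime divisors on the manifold. The number `1 - K 0 y`, which is
the degree `L.y.H^2` of the part of `y` on the manifold, is maximal at `B`. -/
theorem caseD {B : D → ℝ} (hB : B ∈ A.Y) (X : Set D)
    (hX : ∀ y ∈ A.Y, ∀ z ∈ A.Y, (∀ E ∈ X, y E ≤ z E) → A.K 0 z ≤ A.K 0 y)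
    (hmax : ∀ y ∈ A.Y, A.K 0 B ≤ A.K 0 y) (hpos : A.K 0 B < 1) :
    A.K B B = 0 ∧ ∀ y ∈ A.Y, ∀ t : ℝ, 0 ≤ t → t ≤ 1 → (∀ E ∈ X, t * B E ≤ y E) → t • B ≤ y := by
  have hK : ∀ t : ℝ, 0 ≤ t → t ≤ 1 → ∀ y ∈ A.Y, A.K 0 (t • y) = 1 - t * (1 - A.K 0 y) := by
    intro t h0 h1 y hy
    rw [A.symm 0 A.zero_mem _ (A.smul_mem hy h0 h1), A.K_smul hy A.zero_mem h0 h1, A.one,
      A.symm y hy 0 A.zero_mem]
    ring
  refine A.extremal hB X (fun y => 1 - A.K 0 y) (by linarith) ?_ (fun y hy => ?_) ?_ ?_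
  · intro y hy z hz c hc hle
    have hc0 : 0 < c := lt_of_lt_of_le one_pos hc
    have h1 : c⁻¹ ≤ 1 := inv_le_one_of_one_le₀ hc
    have h2 : y ≤ c⁻¹ • z := by
      intro E
      have := hle E
      simp only [Pi.smul_apply, smul_eq_mul] at this ⊢
      rw [inv_mul_eq_div, le_div_iff₀ hc0]
      linarith
    have h3 := A.anti y hy _ (A.smul_mem hz (by positivity) h1) 0 A.zero_mem h2
    rw [A.symm _ (A.smul_mem hz (by positivity) h1) 0 A.zero_mem, hK _ (by positivity) h1 z hz,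
      A.symm y hy 0 A.zero_mem] at h3
    have h4 : c * (1 - A.K 0 y) ≤ c * (c⁻¹ * (1 - A.K 0 z)) :=
      mul_le_mul_of_nonneg_left (by linarith) hc0.le
    rwa [mul_inv_cancel_left₀ hc0.ne'] at h4
  · have := hmax y hy
    show 1 - A.K 0 y ≤ 1 - A.K 0 B
    linarith
  · intro y hy t h0 h1 hle
    have h2 := hX _ (A.smul_mem hB h0 h1) y hy hle
    rw [hK t h0 h1 B hB] at h2
    show t * (1 - A.K 0 B) ≤ 1 - A.K 0 y
    linarith
  · intro y hy t h0 h1 hle hge
    have h2 := hX _ (A.smul_mem hB h0 h1) y hy hge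
    have h3 := hX y hy _ (A.smul_mem hB h0 h1) (fun E _ => hle E)
    rw [hK t h0 h1 B hB] at h2 h3
    linarith

/-- **Case E.** `L.y = 0` for all `y`. The coefficient at the prime divisor `E` is maximal at `B`. -/
theorem caseE {B : D → ℝ} (hB : B ∈ A.Y) (hL : ∀ y ∈ A.Y, A.K 0 y = 1) (E : D)
    (hmax : ∀ y ∈ A.Y, y E ≤ B E) (hpos : 0 < B E) :
    A.K B B = 0 ∧ ∀ y ∈ A.Y, ∀ t : ℝ, 0 ≤ t → t ≤ 1 → t * B E ≤ y E → t • B ≤ y := by
  have h := A.extremal hB {E} (fun y => y E) hpos (fun y _ z _ c _ hle => hle E) hmax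
    (fun y _ t _ _ hle => hle E rfl)
    (fun y hy t _ _ _ _ => by rw [hL y hy, hL B hB]; ring)
  refine ⟨h.1, fun y hy t h0 h1 hle => h.2 y hy t h0 h1 ?_⟩
  rintro F rfl
  exact hle

end BCone

end Pool.Agent.H88.XF
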