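import Mathlib

/-!
# The direction of the extremal class is rational

The vector `b` of coefficients is orthogonal, with respect to a rational quadratic form, to the
hyperplane `th = 0` of the smallest rational subspace which contains `b`, and the form is anisotropic
on this hyperplane. So `b` is a multiple of a rational vector.
-/

namespace Pool.Agent.H88.XF

open scoped BigOperators

/-- a real vector is a combination of rational vectors, with coefficients which are linearly independent
over the rational numbers -/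
theorem exists_rational_parts {J : Type*} [Finite J] (b : J → ℝ) :
    ∃ (m : ℕ) (c : Fin m → ℝ) (r : Fin m → J → ℚ), (∀ j, b j = ∑ i, c i * r i j) ∧
      ∀ a : Fin m → ℚ, ∑ i, c i * a i = 0 → ∀ i, a i = 0 := by
  classical
  let W : Submodule ℚ ℝ := Submodule.span ℚ (Set.range b)
  haveI : FiniteDimensional ℚ W := FiniteDimensional.span_of_finite ℚ (Set.finite_range b)
  let B := Module.finBasis ℚ W
  have hb : ∀ j, b j ∈ W := fun j => Submodule.subset_span ⟨j, rfl⟩
  refine ⟨_, fun i => (B i : ℝ), fun i j => B.repr ⟨b j, hb j⟩ i, fun j => ?_, fun a ha i => ?_⟩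
  · have h := B.sum_repr ⟨b j, hb j⟩
    have h2 := congrArg (fun w : W => (w : ℝ)) h
    simp only [AddSubmonoidClass.coe_finset_sum, Submodule.coe_smul] at h2
    refine h2.symm.trans (Finset.sum_congr rfl fun i _ => ?_)
    rw [Rat.smul_def, mul_comm]
  · have h : ∑ i, a i • B i = 0 := by
      apply Subtype.ext
      simp only [AddSubmonoidClass.coe_finset_sum, Submodule.coe_smul, ZeroMemClass.coe_zero]
      rw [← ha]
      refine Finset.sum_congr rfl fun i _ => ?_
      rw [Rat.smul_def, mul_comm]
    exact (Fintype.linearIndependent_iff.1 B.linearIndependent) a h i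

/-- **Theorem.** `q` is a rational quadratic form and `th` a rational linear form. Suppose that every real
vector `h` in the smallest rational subspace which contains `b`, with `th h = 0`, is orthogonal to `b`,
and that it is zero if it is isotropic. Then `b` is a multiple of a rational vector. -/
theorem exists_rational_direction {J : Type*} [Fintype J] (b : J → ℝ) (q : J → J → ℚ) (th : J → ℚ)
    (hth : ∑ j, (th j : ℝ) * b j ≠ 0)
    (horth : ∀ h : J → ℝ, (∀ a : J → ℚ, ∑ j, (a j : ℝ) * b j = 0 → ∑ j, (a j : ℝ) * h j = 0) →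
      ∑ j, (th j : ℝ) * h j = 0 → ∑ i, ∑ j, (q i j : ℝ) * b i * h j = 0)
    (haniso : ∀ h : J → ℝ, (∀ a : J → ℚ, ∑ j, (a j : ℝ) * b j = 0 → ∑ j, (a j : ℝ) * h j = 0) →
      ∑ j, (th j : ℝ) * h j = 0 → ∑ i, ∑ j, (q i j : ℝ) * h i * h j = 0 → h = 0) :
    ∃ (c : ℝ) (r : J → ℚ), ∀ j, b j = c * r j := by
  classical
  obtain ⟨m, c, r, hbr, hind⟩ := exists_rational_parts b
  -- rational linear forms
  have hform : ∀ a : J → ℚ, ∑ j, (a j : ℝ) * b j = ∑ i, c i * ((∑ j, a j * r i j : ℚ) : ℝ) := by
    intro a
    simp_rw [hbr, Finset.mul_sum]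
    rw [Finset.sum_comm]
    refine Finset.sum_congr rfl fun i _ => ?_
    push_cast
    rw [Finset.mul_sum]
    exact Finset.sum_congr rfl fun j _ => by ring
  -- the rational vectors `r i` are in the subspace
  have hU : ∀ i, ∀ a : J → ℚ, ∑ j, (a j : ℝ) * b j = 0 → ∑ j, a j * r i j = 0 := by
    intro i a ha
    rw [hform] at ha
    exact hind _ ha i
  -- there is an `i0` with `th (r i0) ≠ 0`
  obtain ⟨i0, hi0⟩ : ∃ i0, ∑ j, th j * r i0 j ≠ 0 := by
    by_contra hcon
    push_neg at hcon
    apply hth
    rw [hform]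
    exact Finset.sum_eq_zero fun i _ => by rw [hcon i]; simp
  set t0 := ∑ j, th j * r i0 j with ht0
  -- a rational vector of the subspace with `th = 0`
  have hUv : ∀ (x y : ℚ) (i i' : Fin m), ∀ a : J → ℚ, ∑ j, (a j : ℝ) * b j = 0 →
      ∑ j, (a j : ℝ) * (((x * r i j - y * r i' j : ℚ)) : ℝ) = 0 := by
    intro x y i i' a ha
    have h1 := hU i a ha
    have h2 := hU i' a ha
    have h3 : ∑ j, a j * (x * r i j - y * r i' j) = 0 := by
      have : ∑ j, a j * (x * r i j - y * r i' j) = x * ∑ j, a j * r i j - y * ∑ j, a j * r i' j := by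
        rw [Finset.mul_sum, Finset.mul_sum, ← Finset.sum_sub_distrib]
        exact Finset.sum_congr rfl fun j _ => by ring
      rw [this, h1, h2]
      ring
    exact_mod_cast h3
  -- `b` is orthogonal to them, so every `r i` is
  have horth' : ∀ v : J → ℚ, (∀ a : J → ℚ, ∑ j, (a j : ℝ) * b j = 0 → ∑ j, (a j : ℝ) * (v j : ℝ) = 0) →
      ∑ j, th j * v j = 0 → ∀ i, ∑ i', ∑ j, q i' j * r i i' * v j = 0 := by
    intro v hv htv
    have h1 := horth (fun j => (v j : ℝ)) hv (by exact_mod_cast htv)
    have h2 : ∑ i, ∑ j, (q i j : ℝ) * b i * (v j : ℝ)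
        = ∑ i, c i * ((∑ i', ∑ j, q i' j * r i i' * v j : ℚ) : ℝ) := by
      simp_rw [hbr]
      have h3 : ∀ i' j, (q i' j : ℝ) * (∑ i, c i * (r i i' : ℝ)) * (v j : ℝ)
          = ∑ i, c i * ((q i' j : ℝ) * r i i' * v j) := by
        intro i' j
        rw [Finset.mul_sum, Finset.sum_mul]
        exact Finset.sum_congr rfl fun i _ => by ring
      simp_rw [h3]
      have h4 : ∑ i' : J, ∑ j : J, ∑ i, c i * ((q i' j : ℝ) * r i i' * v j)
          = ∑ i, ∑ i' : J, ∑ j : J, c i * ((q i' j : ℝ) * r i i' * v j) := by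
        rw [Finset.sum_comm' (t' := Finset.univ) (s' := fun _ => Finset.univ) (by simp)]
        rw [← Finset.sum_comm]
        refine Eq.trans ?_ (Finset.sum_comm)
        refine Finset.sum_congr rfl fun i' _ => ?_
        exact Finset.sum_comm
      rw [h4]
      refine Finset.sum_congr rfl fun i _ => ?_
      push_cast
      rw [Finset.mul_sum]
      refine Finset.sum_congr rfl fun i' _ => ?_
      rw [Finset.mul_sum]
    rw [h2] at h1
    exact hind _ h1
  -- `t0 r i = th (r i) r i0`
  have hprop : ∀ i j, t0 * r i j = (∑ j, th j * r i j) * r i0 j := by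
    intro i
    set ti := ∑ j, th j * r i j with hti
    let v : J → ℚ := fun j => t0 * r i j - ti * r i0 j
    have hv := hUv t0 ti i i0
    have htv : ∑ j, th j * v j = 0 := by
      have : ∑ j, th j * v j = t0 * ∑ j, th j * r i j - ti * ∑ j, th j * r i0 j := by
        rw [Finset.mul_sum, Finset.mul_sum, ← Finset.sum_sub_distrib]
        exact Finset.sum_congr rfl fun j _ => by simp only [v]; ring
      rw [this, ← hti, ← ht0]
      ring
    have h1 := horth' v hv htv
    have h2 : ∑ i', ∑ j, q i' j * v i' * v j = 0 := by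
      have h3 : ∑ i', ∑ j, q i' j * v i' * v j
          = t0 * (∑ i', ∑ j, q i' j * r i i' * v j) - ti * ∑ i', ∑ j, q i' j * r i0 i' * v j := by
        simp_rw [Finset.mul_sum, ← Finset.sum_sub_distrib]
        refine Finset.sum_congr rfl fun i' _ => Finset.sum_congr rfl fun j _ => ?_
        simp only [v]
        ring
      rw [h3, h1 i, h1 i0]
      ring
    have h4 := haniso (fun j => (v j : ℝ)) hv (by exact_mod_cast htv) (by exact_mod_cast h2)
    intro j
    have h5 := congrFun h4 j
    have h6 : v j = 0 := by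
      rw [Pi.zero_apply] at h5
      exact_mod_cast h5
    simp only [v] at h6
    linarith
  -- conclusion
  refine ⟨∑ i, c i * ((∑ j, th j * r i j : ℚ) : ℝ) / (t0 : ℝ), r i0, fun j => ?_⟩
  rw [hbr, Finset.sum_mul]
  refine Finset.sum_congr rfl fun i _ => ?_
  have h1 : (t0 : ℝ) ≠ 0 := by exact_mod_cast hi0
  have h2 : (t0 : ℝ) * r i j = ((∑ j, th j * r i j : ℚ) : ℝ) * r i0 j := by exact_mod_cast hprop i j
  have h3 : c i * ((∑ j, th j * r i j : ℚ) : ℝ) / (t0 : ℝ) * r i0 j
      = c i * (((∑ j, th j * r i j : ℚ) : ℝ) * r i0 j) / t0 := by ring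
  rw [h3, ← h2]
  field_simp

end Pool.Agent.H88.XF
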